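import Pool.Agent.TH35.CH.Trv
import Pool.Agent.H106MG.Inv

set_option autoImplicit false

/-! Elements which are unipotent in all small representations over fields: small representations of
finite-index subgroups over commutative rings in which the order is invertible. -/

namespace Pool.Agent.Q134.MG

open Pool.Agent.H106MG Pool.Agent.TH35.CH

universe u

/-- the element `T` of `G` is unipotent (with exponent `m`) in all representations of dimension
less than `D` over fields -/
def SmallUnip {G : Type*} [Group G] (T : G) (D m : ℕ) : Prop :=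
  ∀ (K : Type u) [Field K] (d : ℕ) (f : G →* Matrix.GeneralLinearGroup (Fin d) K), d < D →
    ((f T : Matrix (Fin d) (Fin d) K) - 1) ^ m = 0

/-- an element of finite order, invertible in `R`, which is trivial modulo all maximal ideals -/
theorem cop_one {R : Type u} [CommRing R] {D k : ℕ} (U : Matrix.GeneralLinearGroup (Fin D) R)
    (hk : IsUnit (k : R)) (hU : U ^ k = 1)
    (h : ∀ (M : Ideal R), M.IsMaximal →
      Matrix.GeneralLinearGroup.map (Ideal.Quotient.mk M) U = 1) : U = 1 := by
  classical
  set A : Matrix (Fin D) (Fin D) R := (U : Matrix (Fin D) (Fin D) R) with hA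
  set S : Matrix (Fin D) (Fin D) R := ∑ i ∈ Finset.range k, A ^ i with hS
  have h1 : (A - 1) * S = 0 := by
    rw [hS, mul_geom_sum]
    have h2 := congrArg (fun z : Matrix.GeneralLinearGroup (Fin D) R =>
      (z : Matrix (Fin D) (Fin D) R)) hU
    simp only [Units.val_pow_eq_pow_val, Units.val_one] at h2
    rw [hA, h2, sub_self]
  have h3 : IsUnit S.det := by
    by_contra hn
    obtain ⟨M, hM, hmem⟩ := exists_max_ideal_of_mem_nonunits (mem_nonunits_iff.2 hn)
    have hAM : A.map (Ideal.Quotient.mk M) = 1 := by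
      have h4 := congrArg (fun z : Matrix.GeneralLinearGroup (Fin D) (R ⧸ M) =>
        (z : Matrix (Fin D) (Fin D) (R ⧸ M))) (h M hM)
      exact h4
    have hSM : S.map (Ideal.Quotient.mk M) = (k : Matrix (Fin D) (Fin D) (R ⧸ M)) := by
      have h5 : (Ideal.Quotient.mk M).mapMatrix S = (k : Matrix (Fin D) (Fin D) (R ⧸ M)) := by
        rw [hS, map_sum]
        have h6 : ∀ i ∈ Finset.range k, (Ideal.Quotient.mk M).mapMatrix (A ^ i) = 1 := by
          intro i _
          rw [map_pow]
          have h7 : (Ideal.Quotient.mk M).mapMatrix A = 1 := hAM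
          rw [h7, one_pow]
        rw [Finset.sum_congr rfl h6]
        simp
      exact h5
    have h8 : Ideal.Quotient.mk M S.det = (k : R ⧸ M) ^ D := by
      rw [RingHom.map_det]
      have h9 : (Ideal.Quotient.mk M).mapMatrix S = (k : Matrix (Fin D) (Fin D) (R ⧸ M)) := hSM
      rw [h9]
      have h10 : (k : Matrix (Fin D) (Fin D) (R ⧸ M)) =
          Matrix.diagonal fun _ => (k : R ⧸ M) := rfl
      rw [h10, Matrix.det_diagonal]
      simp
    have h11 : Ideal.Quotient.mk M S.det = 0 := Ideal.Quotient.eq_zero_iff_mem.2 hmem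
    have : M.IsMaximal := hM
    have : Nontrivial (R ⧸ M) := Ideal.Quotient.nontrivial_iff.2 hM.ne_top
    have h12 : IsUnit ((k : R ⧸ M) ^ D) := by
      apply IsUnit.pow
      have := hk.map (Ideal.Quotient.mk M)
      simpa using this
    rw [← h8, h11] at h12
    exact not_isUnit_zero h12
  have h4 : IsUnit S := (Matrix.isUnit_iff_isUnit_det S).2 h3
  apply Units.ext
  have h5 : A - 1 = 0 := by
    obtain ⟨V, hV⟩ := h4
    have : (A - 1) * (V : Matrix (Fin D) (Fin D) R) = 0 := by rw [hV]; exact h1
    calc A - 1 = (A - 1) * (V : Matrix (Fin D) (Fin D) R) *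
          ((V⁻¹ : (Matrix (Fin D) (Fin D) R)ˣ) : Matrix (Fin D) (Fin D) R) := by
            rw [mul_assoc, Units.mul_inv, mul_one]
      _ = 0 := by rw [this, zero_mul]
  exact sub_eq_zero.1 h5

/-- the whole group, over a commutative ring -/
theorem ring_one {G : Type*} [Group G] {T : G} {D m : ℕ} (hT : SmallUnip.{u} T D m)
    {R : Type u} [CommRing R] {d k : ℕ} (hd : d < D)
    (F : G →* Matrix.GeneralLinearGroup (Fin d) R) (hk : IsUnit (k : R)) (hU : F T ^ k = 1) :
    F T = 1 := by
  apply cop_one _ hk hU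
  intro M hM
  let _ : Field (R ⧸ M) := Ideal.Quotient.field M
  let f : G →* Matrix.GeneralLinearGroup (Fin d) (R ⧸ M) :=
    (Matrix.GeneralLinearGroup.map (Ideal.Quotient.mk M)).comp F
  have h1 := hT (R ⧸ M) d f hd
  have h2 : ((k : ℕ) : R ⧸ M) ≠ 0 := by
    have h3 := hk.map (Ideal.Quotient.mk M)
    rw [map_natCast] at h3
    exact h3.ne_zero
  have h3 : (f T) ^ k = 1 := by
    show (Matrix.GeneralLinearGroup.map (Ideal.Quotient.mk M) (F T)) ^ k = 1
    rw [← map_pow, hU, map_one]
  exact unip_fin (f T) h1 h2 h3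

/-- the induced representation has the core as its kernel -/
theorem exists_ind' {G : Type*} [Group G] (H : Subgroup G) (hH : H.index ≠ 0) {R : Type u}
    [CommRing R] [Nontrivial R] {d : ℕ} (hd : 0 < d)
    (φ : H →* Matrix.GeneralLinearGroup (Fin d) R) :
    ∃ F : G →* Matrix.GeneralLinearGroup (Fin (H.index * d)) R,
      F.ker ≤ φ.ker.map H.subtype ∧
      ∀ g : G, (∀ x : G, x * g * x⁻¹ ∈ φ.ker.map H.subtype) → F g = 1 := by
  classical
  have : H.FiniteIndex := ⟨hH⟩
  have : Fintype (G ⧸ H) := Fintype.ofFinite _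
  have hcard : Fintype.card ((G ⧸ H) × Fin d) = H.index * d := by
    rw [Fintype.card_prod, Fintype.card_fin, Subgroup.index, Nat.card_eq_fintype_card]
  let e : (G ⧸ H) × Fin d ≃ Fin (H.index * d) := Fintype.equivFinOfCardEq hcard
  let ri := Matrix.reindexAlgEquiv R R e
  let μ : G →* Matrix (Fin (H.index * d)) (Fin (H.index * d)) R :=
    (ri : _ →* _).comp (indHom H φ)
  refine ⟨μ.toHomUnits, ?_, ?_⟩
  · intro g hg
    have h1 : μ g = 1 := by
      rw [← MonoidHom.coe_toHomUnits, MonoidHom.mem_ker.1 hg, Units.val_one]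
    have h2 : indM H φ g = 1 := by
      apply ri.injective
      rw [map_one]
      exact h1
    obtain ⟨hgH, h3⟩ := indM_ker H φ hd g h2
    exact ⟨⟨g, hgH⟩, h3, rfl⟩
  · intro g hg
    apply Units.ext
    show μ g = 1
    have h2 : indM H φ g = 1 := by
      ext ⟨x, i⟩ ⟨y, j⟩
      have hmem := hg (rp H y)⁻¹
      rw [inv_inv] at hmem
      obtain ⟨z, hz1, hz2⟩ := hmem
      have hz2' : (z : G) = (rp H y)⁻¹ * g * rp H y := hz2
      have hfix : g • y = y := by
        have h3 : (QuotientGroup.mk (g * rp H y) : G ⧸ H) = QuotientGroup.mk (rp H y) := by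
          rw [eq_comm, QuotientGroup.eq, ← mul_assoc, ← hz2']
          exact z.2
        have h4 : g • y = (QuotientGroup.mk (g * rp H y) : G ⧸ H) := by
          conv_lhs => rw [← rp_mk H y]
          rfl
        rw [h4, h3, rp_mk]
      have hcoc : coc H g y = z := by
        apply Subtype.ext
        rw [hz2']
        show (rp H (g • y))⁻¹ * g * rp H y = _
        rw [hfix]
      simp only [indM, Matrix.of_apply]
      rw [hfix, hcoc, MonoidHom.mem_ker.1 hz1]
      by_cases hxy : x = y
      · subst hxy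
        rw [if_pos rfl]
        by_cases hij : i = j
        · subst hij; simp
        · simp [hij]
      · rw [if_neg hxy]
        simp [hxy]
    have h3 : μ g = ri (indM H φ g) := rfl
    rw [h3, h2, map_one]

/-- finite-index subgroups, over a commutative ring -/
theorem fin_one {G : Type*} [Group G] {T : G} {D m : ℕ} (hT : SmallUnip.{u} T D m)
    {R : Type u} [CommRing R] [Nontrivial R] {d k : ℕ} (hd0 : 0 < d) (H : Subgroup G)
    (hH : H.index ≠ 0) (hd : H.index * d < D) (φ : H →* Matrix.GeneralLinearGroup (Fin d) R)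
    (hk : IsUnit (k : R)) (hU : ∀ x : G, (x * T * x⁻¹) ^ k ∈ φ.ker.map H.subtype) (x : G) :
    x * T * x⁻¹ ∈ φ.ker.map H.subtype := by
  obtain ⟨F, hF1, hF2⟩ := exists_ind' H hH hd0 φ
  have h1 : F T ^ k = 1 := by
    rw [← map_pow]
    apply hF2
    intro y
    have := hU y
    rwa [conj_pow] at this
  have h2 := ring_one hT hd F hk h1
  apply hF1
  rw [MonoidHom.mem_ker, map_mul, map_mul, h2, mul_one, ← map_mul, mul_inv_cancel, map_one]

/-- projective representations as linear ones -/
theorem exists_lin {H : Type*} [Group H] {R : Type u} [CommRing R] {d : ℕ}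
    (φ : H →* Matrix.ProjGenLinGroup (Fin d) R) :
    ∃ ψ : H →* Matrix.GeneralLinearGroup (Fin (d * d)) R, ψ.ker = φ.ker := by
  have hle : Subgroup.center (Matrix.GeneralLinearGroup (Fin d) R) ≤
      (AdM (R := R) (d := d)).ker := fun T hT => (AdM_ker T).2 hT
  let q : Matrix.ProjGenLinGroup (Fin d) R →* Module.End R (Matrix (Fin d) (Fin d) R) :=
    QuotientGroup.lift (Subgroup.center (Matrix.GeneralLinearGroup (Fin d) R)) AdM hle
  have hq : ∀ y, q y = 1 → y = 1 := by
    intro y hy
    obtain ⟨S, hS⟩ := Matrix.ProjGenLinGroup.mk_surjective y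
    have h2 : AdM S = 1 := by
      rw [← hS] at hy
      exact hy
    rw [← hS, Matrix.ProjGenLinGroup.mk_eq_one]
    exact (AdM_ker S).1 h2
  refine ⟨toG (q.comp φ), ?_⟩
  ext y
  rw [MonoidHom.mem_ker, MonoidHom.mem_ker, toG_ker]
  constructor
  · intro h
    exact hq _ h
  · intro h
    show q (φ y) = 1
    rw [h, map_one]

end Pool.Agent.Q134.MG
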