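import Pool.Agent.Q134.MG.Twist
import Pool.Agent.Results.MP_181555_al.SmallDegreeQuotients

set_option autoImplicit false

/-! The normal closure of a transvection in `Aut(F_n)` is perfect and a congruence subgroup,
`n ≥ 3`. -/

namespace Pool.Agent.Q134.MG

open Pool.Agent.TH35.CH Pool.Agent.Results.MP_181555_al.SmallDegreeQuotients

open scoped commutatorElement

theorem trv_comm {n : ℕ} {i j k : Fin n} (hji : j ≠ i) (hki : k ≠ i) (hjk : j ≠ k) :
    trR i j hji = ⁅(trR k j hjk)⁻¹, (trR i k hki)⁻¹⁆ := by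
  have key : trR k j hjk * trR i k hki = trR i k hki * trR k j hjk * trR i j hji := by
    apply aut_ext
    intro l
    simp only [MulAut.mul_apply]
    by_cases h1 : l = i
    · subst h1
      rw [trR_self, trR_self, map_mul, map_mul, map_mul, trR_self k j, trR_ne k j hjk hki.symm,
        trR_self l k, trR_ne k j hjk hjk, trR_ne l k hki hji, mul_assoc]
    · rw [trR_ne i k hki h1, trR_ne i j hji h1]
      by_cases h2 : l = k
      · subst h2
        rw [trR_self, map_mul, trR_ne i l hki h1, trR_ne i l hki hji]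
      · rw [trR_ne k j hjk h2, trR_ne i k hki h1]
  rw [commutatorElement_def, inv_inv, inv_inv]
  calc trR i j hji = (trR i k hki * trR k j hjk)⁻¹ *
        (trR i k hki * trR k j hjk * trR i j hji) := by group
    _ = _ := by rw [← key]; group

theorem trR_isTransvection {n : ℕ} {i j : Fin n} (h : j ≠ i) : IsTransvection (trR i j h) :=
  ⟨i, j, h.symm, trR_self i j h, fun _ hk => trR_ne i j h hk⟩

theorem eq_trR {n : ℕ} {τ : MulAut (FreeGroup (Fin n))} (h : IsTransvection τ) :
    ∃ (i j : Fin n) (hij : j ≠ i), τ = trR i j hij := by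
  obtain ⟨i, j, hij, h1, h2⟩ := h
  refine ⟨i, j, hij.symm, aut_ext fun k => ?_⟩
  by_cases hk : k = i
  · subst hk
    rw [h1, trR_self]
  · rw [h2 k hk, trR_ne i j hij.symm hk]

theorem trv_perfect {n : ℕ} (hn : 3 ≤ n) {τ : MulAut (FreeGroup (Fin n))}
    (hτ : IsTransvection τ) :
    ⁅Subgroup.normalClosure {τ}, Subgroup.normalClosure {τ}⁆ = Subgroup.normalClosure {τ} := by
  have hall : ∀ σ, IsTransvection σ → σ ∈ Subgroup.normalClosure {τ} := by
    intro σ hσ
    obtain ⟨φ, hφ⟩ := trv_conj hτ hσ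
    rw [hφ]
    exact conj_mem_nclosure τ φ
  apply le_antisymm (Subgroup.commutator_le_self _)
  apply Subgroup.normalClosure_le_normal
  intro z hz
  rw [Set.mem_singleton_iff.1 hz]
  obtain ⟨i, j, hij, rfl⟩ := eq_trR hτ
  obtain ⟨k, hki, hkj⟩ : ∃ k : Fin n, k ≠ i ∧ k ≠ j := by
    have hc : ({i, j} : Finset (Fin n)).card < Fintype.card (Fin n) := by
      have := Finset.card_le_two (a := i) (b := j)
      rw [Fintype.card_fin]
      omega
    obtain ⟨k, -, hk⟩ := Finset.exists_mem_notMem_of_card_lt_card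
      (s := ({i, j} : Finset (Fin n))) (t := Finset.univ) (by rwa [Finset.card_univ])
    exact ⟨k, fun h => hk (by simp [h]), fun h => hk (by simp [h])⟩
  have h1 := Subgroup.commutator_mem_commutator
    (inv_mem (hall _ (trR_isTransvection hkj.symm))) (inv_mem (hall _ (trR_isTransvection hki)))
  rw [← trv_comm hij hki hkj.symm] at h1
  exact h1

/-- `L` is a congruence subgroup: it contains the automorphisms which act on `F_n / C` as inner
automorphisms, for some characteristic subgroup `C` of finite index -/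
def IsCongruence {n : ℕ} (L : Subgroup (MulAut (FreeGroup (Fin n)))) : Prop :=
  ∃ C : Subgroup (FreeGroup (Fin n)), C.Characteristic ∧ C.FiniteIndex ∧
    ∀ ψ : MulAut (FreeGroup (Fin n)), InnerMod C ψ → ψ ∈ L

theorem congruence_of {n : ℕ} (hn : 3 ≤ n) {L : Subgroup (MulAut (FreeGroup (Fin n)))}
    (hL : ∀ τ y : MulAut (FreeGroup (Fin n)), IsTransvection τ → y * τ * y⁻¹ ∈ L) :
    L.FiniteIndex ∧ IsCongruence L := by
  have h0 : (⟨0, by omega⟩ : Fin n) ≠ ⟨1, by omega⟩ := by
    intro h
    simp at h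
  have hτ := trR_isTransvection h0
  set τ := trR (⟨1, by omega⟩ : Fin n) ⟨0, by omega⟩ h0 with hdef
  have hle : Subgroup.normalClosure {τ} ≤ L := nclosure_le fun y => hL τ y hτ
  have hall : ∀ σ, IsTransvection σ → σ ∈ Subgroup.normalClosure {τ} := by
    intro σ hσ
    obtain ⟨φ, hφ⟩ := trv_conj hτ hσ
    rw [hφ]
    exact conj_mem_nclosure τ φ
  obtain ⟨hC1, hC2, hC3⟩ :=
    Pool.Agent.Results.MP_181555_al.SquaresOfTransvections.result n (by omega)
  obtain ⟨hfi, -, hin⟩ := hC3 (Subgroup.normalClosure {τ}) Subgroup.normalClosure_normal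
    ⟨τ, hτ, mul_mem (hall τ hτ) (hall τ hτ)⟩
  refine ⟨Subgroup.finiteIndex_of_le hle, _, hC1, hC2, fun ψ hψ => hle ?_⟩
  exact hin (inn_mem (by omega) _ Subgroup.normalClosure_normal hall) ψ hψ

end Pool.Agent.Q134.MG
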