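import Pool.Agent.Q134.MG.Cop

set_option autoImplicit false

/-! The normal closure of a Dehn twist in `Mod_g` is perfect, `g ≥ 6`. -/

namespace Pool.Agent.Q134.MG

open Pool.Agent.H29R2.MG Pool.Agent.TH35.MG Pool.Agent.H798R3.MG Pool.Agent.H29R2.QD
  Pool.Agent.Helper950.BG Pool.Agent.H106MG

open scoped commutatorElement

universe u

theorem braid_mem {G : Type*} [Group G] {P : Subgroup G} [hP : P.Normal] {a b : G}
    (h : a * b * a = b * a * b) (ha : a ∈ P) : b ∈ P := by
  have h1 : b = (a * b) * a * (a * b)⁻¹ := by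
    rw [eq_mul_inv_iff_mul_eq, ← mul_assoc, ← h]
  rw [h1]
  exact hP.conj_mem a ha (a * b)

theorem braid_mem' {G : Type*} [Group G] {P : Subgroup G} [hP : P.Normal] {a b : G}
    (h : a * b * a = b * a * b) (hb : b ∈ P) : a ∈ P := braid_mem h.symm hb

theorem perfect_of {G Γ : Type*} [Group G] [Group Γ] (P : Subgroup G) [hP : P.Normal]
    (φ : Γ →* G) {A B al be T : ℕ → Γ} {tau : Γ} {N : ℕ} (hN : 3 ≤ N)
    (r : HRel N A B al be T tau) (hA : φ (A 0) ∈ P) : φ (A 0) ∈ ⁅P, P⁆ := by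
  have hbr : ∀ {x y : Γ}, x * y * x = y * x * y → φ x * φ y * φ x = φ y * φ x * φ y := by
    intro x y h
    simp only [← map_mul, h]
  have b0 := hbr (r.braidAB 0 (by omega))
  have b1 := hbr (r.braidAB 1 (by omega))
  have b2 := hbr (r.braidAB 2 (by omega))
  have t0 := hbr (r.braidTBi 0 (by omega))
  have t0' := hbr (r.braidTBj 0 (by omega))
  have t1 := hbr (r.braidTBi 1 (by omega))
  have t1' := hbr (r.braidTBj 1 (by omega))
  have mB0 : φ (B 0) ∈ P := braid_mem b0 hA
  have mT0 : φ (T 0) ∈ P := braid_mem' t0 mB0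
  have mB1 : φ (B 1) ∈ P := braid_mem t0' mT0
  have mA1 : φ (A 1) ∈ P := braid_mem' b1 mB1
  have mT1 : φ (T 1) ∈ P := braid_mem' t1 mB1
  have mB2 : φ (B 2) ∈ P := braid_mem t1' mT1
  have mA2 : φ (A 2) ∈ P := braid_mem' b2 mB2
  let π : G →* G ⧸ ⁅P, P⁆ := QuotientGroup.mk' ⁅P, P⁆
  have hcomm : ∀ x ∈ P, ∀ y ∈ P, π x * π y = π y * π x := by
    intro x hx y hy
    have h1 : π ⁅x, y⁆ = 1 :=
      (QuotientGroup.eq_one_iff _).2 (Subgroup.commutator_mem_commutator hx hy)
    rw [map_commutatorElement] at h1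
    exact (commutatorElement_eq_one_iff_mul_comm).1 h1
  have heq : ∀ x ∈ P, ∀ y ∈ P, x * y * x = y * x * y → π x = π y := by
    intro x hx y hy h
    have h1 : π x * π y * π x = π y * π x * π y := by
      simp only [← map_mul, h]
    rw [hcomm x hx y hy, mul_assoc, mul_assoc] at h1
    have h2 := mul_left_cancel h1
    exact mul_left_cancel h2
  set t := π (φ (A 0)) with ht
  have e0 : π (φ (B 0)) = t := (heq _ hA _ mB0 b0).symm
  have f0 : π (φ (T 0)) = t := (heq _ mT0 _ mB0 t0).trans e0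
  have e1 : π (φ (B 1)) = t := (heq _ mT0 _ mB1 t0').symm.trans f0
  have a1 : π (φ (A 1)) = t := (heq _ mA1 _ mB1 b1).trans e1
  have f1 : π (φ (T 1)) = t := (heq _ mT1 _ mB1 t1).trans e1
  have e2 : π (φ (B 2)) = t := (heq _ mT1 _ mB2 t1').symm.trans f1
  have a2 : π (φ (A 2)) = t := (heq _ mA2 _ mB2 b2).trans e2
  have hD : π (φ (Dd A B T 0)) = t := by
    have c1 : ∀ n : ℕ, t ^ n * t = t * t ^ n := fun n => (pow_succ t n).symm.trans (pow_succ' t n)
    simp only [Dd, Ss, Sw, Qw, Rw, map_mul, map_inv, e1, e2, f0, f1, a1, a2, zero_add]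
    group
  have hl := congrArg (fun z => π (φ z)) (r.lantern 0 (by omega))
  simp only [Ll, map_mul, map_inv, f0, hD, a1, a2, e0, ← ht, zero_add, f1] at hl
  have h2 : t = 1 := by
    have : t * t * t * (t * t * t)⁻¹ = 1 := mul_inv_cancel _
    rw [this] at hl
    simpa using hl
  exact (QuotientGroup.eq_one_iff _).1 h2

/-- the normal closure of the Dehn twist is perfect -/
theorem twist_perfect {g : ℕ} (hg : 6 ≤ g) (T0 : Mod g) (hT : IsTwist g T0) :
    ⁅Subgroup.normalClosure {T0}, Subgroup.normalClosure {T0}⁆ =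
      Subgroup.normalClosure {T0} := by
  apply le_antisymm (Subgroup.commutator_le_self _)
  apply Subgroup.normalClosure_le_normal
  intro z hz
  rw [Set.mem_singleton_iff.1 hz]
  obtain ⟨Γ, A, B, al, be, T, tau, r, -, hA, -, -, -, -⟩ :=
    setup (g := g) (N := 3) (by omega) (by omega)
  have h1 : ((modF g).comp Γ.subtype) (A 0) = T0 := by
    rw [MonoidHom.comp_apply, twist_eq (by omega) T0 hT]
    congr 1
    exact hA 0 (by omega)
  have h2 := perfect_of (Subgroup.normalClosure {T0}) ((modF g).comp Γ.subtype) le_rfl r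
    (by rw [h1]; exact Subgroup.subset_normalClosure (Set.mem_singleton T0))
  rw [h1] at h2
  exact h2

theorem le_dser {G : Type*} [Group G] {P N : Subgroup G} (hP : ⁅P, P⁆ = P) (h : P ≤ N) (s : ℕ) :
    P ≤ (derivedSeries N s).map N.subtype := by
  rw [dser_sub]
  induction s with
  | zero => exact h
  | succ s ih =>
    show P ≤ ⁅dser N s, dser N s⁆
    rw [← hP]
    exact Subgroup.commutator_mono ih ih

theorem nclosure_le {G : Type*} [Group G] {T : G} {N : Subgroup G}
    (h : ∀ y, y * T * y⁻¹ ∈ N) : Subgroup.normalClosure {T} ≤ N := by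
  unfold Subgroup.normalClosure
  rw [Subgroup.closure_le]
  intro z hz
  obtain ⟨a, ha, hza⟩ := Group.mem_conjugatesOfSet_iff.1 hz
  rw [Set.mem_singleton_iff] at ha
  subst ha
  obtain ⟨c, hc⟩ := isConj_iff.1 hza
  rw [← hc]
  exact h c

theorem conj_mem_nclosure {G : Type*} [Group G] (T y : G) :
    y * T * y⁻¹ ∈ Subgroup.normalClosure {T} :=
  Subgroup.normalClosure_normal.conj_mem T (Subgroup.subset_normalClosure (Set.mem_singleton T)) y

end Pool.Agent.Q134.MG
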